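import Pool.Agent.Helper34.ST.Basic

/-!
os_mods RED: the reduced graph of a dense oriented graph, with weights.
-/

set_option autoImplicit false

namespace Pool.Agent.Helper34.ST

open Finset

open Classical in
theorem red_ed {V : Type} (A : V → V → Prop) (X Y : Finset V) :
    (ed A X Y : ℝ) = ∑ x ∈ X, ∑ y ∈ Y, if A x y then (1 : ℝ) else 0 := by
  unfold ed
  have e : {p : V × V | p.1 ∈ X ∧ p.2 ∈ Y ∧ A p.1 p.2} =
      (((X ×ˢ Y).filter (fun p => A p.1 p.2) : Finset (V × V)) : Set (V × V)) := by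
    ext p
    simp [and_assoc]
  rw [e, Set.ncard_coe_finset, Finset.card_filter, Nat.cast_sum, Finset.sum_product]
  refine sum_congr rfl fun x _ => sum_congr rfl fun y _ => ?_
  split_ifs <;> simp

open Classical in
theorem red_deg {V : Type} [Fintype V] (A : V → V → Prop) (x : V) :
    ({y | A x y}.ncard : ℝ) = ∑ y, if A x y then (1 : ℝ) else 0 := by
  have e : {y | A x y} = ((univ.filter (fun y => A x y) : Finset V) : Set V) := by
    ext y; simp
  rw [e, Set.ncard_coe_finset, Finset.card_filter, Nat.cast_sum]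
  refine sum_congr rfl fun y _ => ?_
  split_ifs <;> simp

theorem red_mem_cl {V κ : Type} [Fintype V] (c : V → κ) (k : κ) (x : V) : x ∈ cl c k ↔ c x = k := by
  unfold cl
  simp

theorem red_fiber {V κ : Type} [Fintype V] [Fintype κ] (c : V → κ) (f : V → ℝ) :
    ∑ k, ∑ y ∈ cl c k, f y = ∑ y, f y := by
  classical
  unfold cl
  exact Finset.sum_fiberwise univ c f

theorem red_card {V κ : Type} [Fintype V] [Fintype κ] (c : V → κ) :
    ∑ k, ((cl c k).card : ℝ) = Fintype.card V := by
  have h := red_fiber c (fun _ => (1 : ℝ))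
  simpa using h

theorem red_degsum {V κ : Type} [Fintype V] [Fintype κ] (A : V → V → Prop) (c : V → κ)
    (X : Finset V) (hX : X.Nonempty) (δ : ℝ) (h : ∀ v, δ ≤ ({y | A v y}.ncard : ℝ)) :
    δ ≤ ∑ k, dn A X (cl c k) * ((cl c k).card : ℝ) := by
  classical
  have hX0 : (0 : ℝ) < X.card := by exact_mod_cast hX.card_pos
  have e : ∀ k, dn A X (cl c k) * ((cl c k).card : ℝ) = (ed A X (cl c k) : ℝ) / X.card := by
    intro k
    unfold dn
    rcases Nat.eq_zero_or_pos (cl c k).card with h0 | h0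
    · have h1 : cl c k = ∅ := Finset.card_eq_zero.1 h0
      rw [red_ed, h1]
      simp
    · have h1 : ((cl c k).card : ℝ) ≠ 0 := by exact_mod_cast h0.ne'
      field_simp
  rw [Finset.sum_congr rfl fun k _ => e k, ← Finset.sum_div, le_div_iff₀ hX0]
  have e2 : ∑ k, (ed A X (cl c k) : ℝ) = ∑ x ∈ X, ({y | A x y}.ncard : ℝ) := by
    rw [Finset.sum_congr rfl fun k _ => red_ed A X (cl c k), Finset.sum_comm]
    refine Finset.sum_congr rfl fun x _ => ?_
    rw [red_fiber c (fun y => if A x y then (1 : ℝ) else 0), red_deg]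
  rw [e2]
  calc δ * X.card = ∑ x ∈ X, δ := by rw [sum_const, nsmul_eq_mul, mul_comm]
    _ ≤ _ := sum_le_sum fun x _ => h x

theorem red_ed_le {V : Type} (A : V → V → Prop) (X Y : Finset V) (hA : ∀ x y, A x y → ¬ A y x) :
    (ed A X Y : ℝ) + ed A Y X ≤ X.card * Y.card := by
  classical
  rw [red_ed, red_ed A Y X, Finset.sum_comm (s := Y) (t := X), ← Finset.sum_add_distrib]
  calc _ ≤ ∑ x ∈ X, (Y.card : ℝ) := by
        refine sum_le_sum fun x _ => ?_
        rw [← sum_add_distrib]
        calc _ ≤ ∑ y ∈ Y, (1 : ℝ) := by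
              refine sum_le_sum fun y _ => ?_
              by_cases h1 : A x y
              · have h2 := hA x y h1
                simp [h1, h2]
              · by_cases h2 : A y x <;> simp [h1, h2]
          _ = _ := by simp
    _ = _ := by rw [sum_const, nsmul_eq_mul]

theorem red_dn_nonneg {V : Type} (A : V → V → Prop) (X Y : Finset V) : 0 ≤ dn A X Y := by
  unfold dn
  positivity

theorem red_dn_add {V : Type} (A : V → V → Prop) (X Y : Finset V) (hA : ∀ x y, A x y → ¬ A y x) :
    dn A X Y + dn A Y X ≤ 1 := by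
  unfold dn
  rw [mul_comm (Y.card : ℝ) (X.card : ℝ), ← add_div]
  exact div_le_one_of_le₀ (red_ed_le A X Y hA) (by positivity)

theorem red_dn_le {V : Type} (A : V → V → Prop) (X Y : Finset V) (hA : ∀ x y, A x y → ¬ A y x) :
    dn A X Y ≤ 1 := by
  have h1 := red_dn_add A X Y hA
  have h2 := red_dn_nonneg A Y X
  linarith

theorem red_dn_flip {V : Type} (A : V → V → Prop) (X Y : Finset V) :
    dn (fun x y => A y x) X Y = dn A Y X := by
  classical
  have h : (ed (fun x y => A y x) X Y : ℝ) = ed A Y X := by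
    rw [red_ed, red_ed, Finset.sum_comm]
  unfold dn
  rw [h, mul_comm (X.card : ℝ)]

open Classical in
theorem red_bad {κ : Type} [Fintype κ] (p u v : κ → ℝ) (hp : ∀ k, 0 ≤ p k) (hu : ∀ k, 0 ≤ u k)
    (hv : ∀ k, 0 ≤ v k) (E t : ℝ) (ht : 0 < t) (h1 : ∑ k, p k * u k ≤ E) (h2 : ∑ k, p k * v k ≤ E)
    (h3 : ∑ k, p k ^ 2 ≤ E) :
    ∑ k, (if (0 < p k ∧ u k ≤ t ∧ v k ≤ t ∧ p k ≤ t) then 0 else p k) ≤ 3 * E / t := by
  rw [le_div_iff₀ ht, Finset.sum_mul]
  have h : ∀ k, (if (0 < p k ∧ u k ≤ t ∧ v k ≤ t ∧ p k ≤ t) then 0 else p k) * t ≤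
      p k * u k + p k * v k + p k ^ 2 := by
    intro k
    have a1 := mul_nonneg (hp k) (hu k)
    have a2 := mul_nonneg (hp k) (hv k)
    have a3 := sq_nonneg (p k)
    split_ifs with hg
    · linarith
    · by_cases h0 : 0 < p k
      · by_cases c1 : u k ≤ t
        · by_cases c2 : v k ≤ t
          · have c3 : t < p k := by
              by_contra c3
              exact hg ⟨h0, c1, c2, not_lt.1 c3⟩
            nlinarith [mul_le_mul_of_nonneg_left c3.le (hp k)]
          · nlinarith [mul_le_mul_of_nonneg_left (not_le.1 c2).le (hp k)]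
        · nlinarith [mul_le_mul_of_nonneg_left (not_le.1 c1).le (hp k)]
      · have h4 : p k = 0 := le_antisymm (not_lt.1 h0) (hp k)
        rw [h4]
        simp
  calc _ ≤ ∑ k, (p k * u k + p k * v k + p k ^ 2) := sum_le_sum fun k _ => h k
    _ = ∑ k, p k * u k + ∑ k, p k * v k + ∑ k, p k ^ 2 := by
        rw [sum_add_distrib, sum_add_distrib]
    _ ≤ 3 * E := by linarith

open Classical in
theorem red_row {κ : Type} [Fintype κ] (p D : κ → ℝ) (q : κ → ℕ) (s : ℕ) (hs : 1 ≤ s)
    (hp : ∀ k, 0 ≤ p k) (hD0 : ∀ k, 0 ≤ D k) (hD1 : ∀ k, D k ≤ 1) (G L R : κ → Prop) (a : κ)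
    (θ n δ : ℝ) (hθ : 0 ≤ θ)
    (hR : ∀ k, G k → k ≠ a → L k → θ / 8 ≤ D k → R k) (hq : ∀ k, R k → p k / s - 1 ≤ q k)
    (hδ : δ ≤ ∑ k, D k * p k) (hG : ∑ k, (if G k then 0 else p k) ≤ 3 / 64 * θ * n)
    (ha : p a ≤ θ / 16 * n) (hL : ∑ k, (if L k then 0 else p k) ≤ θ / 16 * n) (hn : ∑ k, p k = n)
    (hM : (Fintype.card κ : ℝ) * s ≤ θ * n / 8) :
    (δ - 5 / 8 * θ * n) / s ≤ ∑ k, (q k : ℝ) * (if R k then D k else 0) := by
  have hs0 : (0 : ℝ) < s := by exact_mod_cast hs
  have step1 : ∀ k, D k * p k ≤ (if R k then D k * p k else 0) + ((if G k then 0 else p k) +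
      (if k = a then p k else 0) + (if L k then 0 else p k) + θ / 8 * p k) := by
    intro k
    have b1 : 0 ≤ (if G k then 0 else p k) := by split_ifs <;> simp [hp k]
    have b2 : 0 ≤ (if k = a then p k else 0) := by split_ifs <;> simp [hp k]
    have b3 : 0 ≤ (if L k then 0 else p k) := by split_ifs <;> simp [hp k]
    have b4 : 0 ≤ θ / 8 * p k := mul_nonneg (by linarith) (hp k)
    have b5 : D k * p k ≤ p k := by
      have := mul_le_mul_of_nonneg_right (hD1 k) (hp k)
      linarith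
    by_cases h : R k
    · rw [if_pos h]; linarith
    · rw [if_neg h]
      by_cases c1 : G k
      · by_cases c2 : k = a
        · rw [if_pos c2] at b2 ⊢
          linarith
        · by_cases c3 : L k
          · by_cases c4 : θ / 8 ≤ D k
            · exact absurd (hR k c1 c2 c3 c4) h
            · have := mul_le_mul_of_nonneg_right (not_le.1 c4).le (hp k)
              linarith
          · rw [if_neg c3] at b3 ⊢
            linarith
      · rw [if_neg c1] at b1 ⊢
        linarith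
  have step2 : ∀ k, (if R k then D k * p k else 0) / s - 1 ≤ (q k : ℝ) * (if R k then D k else 0) := by
    intro k
    by_cases h : R k
    · rw [if_pos h, if_pos h]
      have h1 := mul_le_mul_of_nonneg_right (hq k h) (hD0 k)
      have h2 := hD1 k
      have e : (p k / s - 1) * D k = D k * p k / s - D k := by ring
      rw [e] at h1
      linarith
    · rw [if_neg h, if_neg h]
      simp
  have t1 : δ ≤ ∑ k, (if R k then D k * p k else 0) + (∑ k, (if G k then 0 else p k) +
      ∑ k, (if k = a then p k else 0) + ∑ k, (if L k then 0 else p k) + θ / 8 * ∑ k, p k) := by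
    refine hδ.trans ((sum_le_sum fun k _ => step1 k).trans (le_of_eq ?_))
    rw [sum_add_distrib, sum_add_distrib, sum_add_distrib, sum_add_distrib, mul_sum]
  have t2 : (∑ k, (if R k then D k * p k else 0)) / s - Fintype.card κ ≤
      ∑ k, (q k : ℝ) * (if R k then D k else 0) := by
    refine le_trans (le_of_eq ?_) (sum_le_sum fun k _ => step2 k)
    rw [sum_sub_distrib, sum_div]
    simp
  have t3 : ∑ k, (if k = a then p k else 0) = p a := by
    rw [Finset.sum_ite_eq' univ a p]
    simp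
  rw [t3, hn] at t1
  refine le_trans ?_ t2
  have t4 : (Fintype.card κ : ℝ) ≤ θ * n / 8 / s := by rw [le_div_iff₀ hs0]; exact hM
  have hn0 : 0 ≤ θ * n := by
    have : 0 ≤ n := by rw [← hn]; exact sum_nonneg fun k _ => hp k
    exact mul_nonneg hθ this
  have t5 : (δ - 5 / 8 * θ * n) / s ≤
      (∑ k, (if R k then D k * p k else 0) - θ * n / 8) / s := by
    apply div_le_div_of_nonneg_right _ hs0.le
    linarith
  rw [sub_div (∑ k, (if R k then D k * p k else 0))] at t5
  linarith

theorem st_RED (h : ST_REG) : ST_RED := by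
  intro θ ε hθ hθ1 hε
  obtain ⟨ε', hε'0, e1, e2, e3⟩ : ∃ ε' : ℝ, 0 < ε' ∧ ε' ≤ ε ∧ ε' ≤ θ / 16 ∧ ε' ≤ θ ^ 2 / 1024 :=
    ⟨min (min ε (θ / 16)) (θ ^ 2 / 1024), lt_min (lt_min hε (by positivity)) (by positivity),
      (min_le_left _ _).trans (min_le_left _ _), (min_le_left _ _).trans (min_le_right _ _),
      min_le_right _ _⟩
  obtain ⟨M, hM⟩ := h ε' hε'0
  obtain ⟨S0, hS0⟩ := exists_nat_ge (8 * (M : ℝ) / θ + 1)
  have hq0 : 0 ≤ 8 * (M : ℝ) / θ := by positivity
  have hS01 : 1 ≤ S0 := by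
    have h1 : (1 : ℝ) ≤ S0 := by linarith
    exact_mod_cast h1
  have hMS : (M : ℝ) * 8 ≤ θ * S0 := by
    have h1 : 8 * (M : ℝ) / θ ≤ S0 := by linarith
    rw [div_le_iff₀ hθ] at h1
    linarith
  refine ⟨2 * S0 + M, ?_⟩
  intro V _ A hA hV δ hδ hout hin
  classical
  obtain ⟨m, c, hm, hirr, hsq⟩ := hM V A (by omega)
  obtain ⟨N, hNd⟩ : ∃ N, N = Fintype.card V := ⟨_, rfl⟩
  rw [← hNd] at hV hδ hirr hsq ⊢
  obtain ⟨s, hsd⟩ : ∃ s, s = N / S0 := ⟨_, rfl⟩
  have hsS : s * S0 ≤ N := by rw [hsd]; exact Nat.div_mul_le_self _ _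
  have hs2 : 2 ≤ s := by rw [hsd]; exact (Nat.le_div_iff_mul_le hS01).2 (by omega)
  have hNlt : N < S0 * (s + 1) := by rw [hsd]; exact Nat.lt_mul_div_succ _ hS01
  have hNlt2 : N < 2 * S0 * s := by nlinarith
  have hs0 : (0 : ℝ) < s := by
    have : 0 < s := by omega
    exact_mod_cast this
  set n : ℝ := (N : ℝ) with hn
  have hn0 : 0 < n := by
    rw [hn]
    have : 0 < N := by omega
    exact_mod_cast this
  have hθn : 0 < θ * n := mul_pos hθ hn0
  have hMs : (M : ℝ) * s ≤ θ * n / 8 := by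
    have h1 : (s : ℝ) * S0 ≤ n := by rw [hn]; exact_mod_cast hsS
    have h2 : (M : ℝ) * 8 * s ≤ θ * S0 * s := mul_le_mul_of_nonneg_right hMS hs0.le
    have h3 : θ * (s * S0) ≤ θ * n := mul_le_mul_of_nonneg_left h1 hθ.le
    nlinarith
  have hms : (m : ℝ) * s ≤ θ * n / 8 := by
    have h1 : (m : ℝ) ≤ M := by exact_mod_cast hm
    have h2 := mul_le_mul_of_nonneg_right h1 hs0.le
    linarith
  -- sizes of the classes
  obtain ⟨p, hpd⟩ : ∃ p : Fin m → ℝ, ∀ k, p k = ((cl c k).card : ℝ) := ⟨_, fun k => rfl⟩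
  have hp : ∀ k, 0 ≤ p k := fun k => by rw [hpd]; positivity
  have hpn : ∑ k, p k = n := by
    rw [sum_congr rfl fun k _ => hpd k, red_card, hn, hNd]
  obtain ⟨u, hud⟩ : ∃ u : Fin m → ℝ, ∀ k, u k = ∑ j, (if LReg A ε' (cl c k) (cl c j) then 0 else p j) :=
    ⟨_, fun k => rfl⟩
  obtain ⟨v, hvd⟩ : ∃ v : Fin m → ℝ, ∀ k, v k = ∑ j, (if LReg A ε' (cl c j) (cl c k) then 0 else p j) :=
    ⟨_, fun k => rfl⟩
  have hu : ∀ k, 0 ≤ u k := fun k => by
    rw [hud]
    refine sum_nonneg fun j _ => ?_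
    split_ifs <;> simp [hp j]
  have hv : ∀ k, 0 ≤ v k := fun k => by
    rw [hvd]
    refine sum_nonneg fun j _ => ?_
    split_ifs <;> simp [hp j]
  have hpu : ∑ k, p k * u k ≤ ε' * n ^ 2 := by
    refine le_trans (le_of_eq ?_) hirr
    unfold irr
    refine sum_congr rfl fun k _ => ?_
    rw [hud, mul_sum]
    refine sum_congr rfl fun j _ => ?_
    rw [hpd, hpd]
    split_ifs <;> simp
  have hpv : ∑ k, p k * v k ≤ ε' * n ^ 2 := by
    refine le_trans (le_of_eq ?_) hirr
    unfold irr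
    rw [sum_comm]
    refine sum_congr rfl fun k _ => ?_
    rw [hvd, mul_sum]
    refine sum_congr rfl fun j _ => ?_
    rw [hpd, hpd]
    split_ifs
    · simp
    · ring
  have hpp : ∑ k, p k ^ 2 ≤ ε' * n ^ 2 := by
    refine le_trans (le_of_eq ?_) hsq
    exact sum_congr rfl fun k _ => by rw [hpd]
  obtain ⟨G, hGd⟩ : ∃ G : Fin m → Prop, ∀ k, G k ↔
      (0 < p k ∧ u k ≤ θ / 16 * n ∧ v k ≤ θ / 16 * n ∧ p k ≤ θ / 16 * n) := ⟨_, fun k => Iff.rfl⟩
  have ht : 0 < θ / 16 * n := by positivity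
  have hbad : ∑ k, (if G k then 0 else p k) ≤ 3 / 64 * θ * n := by
    have h1 := red_bad p u v hp hu hv (ε' * n ^ 2) (θ / 16 * n) ht hpu hpv hpp
    have h2 : ∑ k, (if G k then 0 else p k) =
        ∑ k, (if (0 < p k ∧ u k ≤ θ / 16 * n ∧ v k ≤ θ / 16 * n ∧ p k ≤ θ / 16 * n) then 0 else p k) := by
      refine sum_congr rfl fun k _ => ?_
      by_cases hk : G k
      · rw [if_pos hk, if_pos ((hGd k).1 hk)]
      · rw [if_neg hk, if_neg fun h => hk ((hGd k).2 h)]
    rw [h2]
    refine h1.trans ?_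
    rw [div_le_iff₀ ht]
    have h3 : ε' * n ^ 2 ≤ θ ^ 2 / 1024 * n ^ 2 := mul_le_mul_of_nonneg_right e3 (sq_nonneg n)
    nlinarith
  obtain ⟨q, hqd⟩ : ∃ q : Fin m → ℕ, ∀ k, q k = if G k then (cl c k).card / s else 0 :=
    ⟨_, fun k => rfl⟩
  have hqs : ∀ k, (q k : ℝ) * s ≤ p k := by
    intro k
    rw [hqd, hpd]
    by_cases hk : G k
    · rw [if_pos hk]
      exact_mod_cast Nat.div_mul_le_self _ _
    · rw [if_neg hk]
      simp
  have hqG : ∀ k, G k → p k / s - 1 ≤ q k := by
    intro k hk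
    rw [hqd, hpd, if_pos hk, sub_le_iff_le_add, div_le_iff₀ hs0]
    have h1 : (cl c k).card < s * ((cl c k).card / s + 1) := Nat.lt_mul_div_succ _ (by omega)
    have h2 : ((cl c k).card : ℝ) ≤ s * (((cl c k).card / s : ℕ) + 1) := by exact_mod_cast h1.le
    linarith
  -- the reduced graph
  obtain ⟨ρ, hρd⟩ : ∃ ρ : Fin m → Fin m → Prop, ∀ k l, ρ k l ↔ (G k ∧ G l ∧ k ≠ l ∧
      LReg A ε' (cl c k) (cl c l) ∧ θ / 8 ≤ dn A (cl c k) (cl c l)) := ⟨_, fun k l => Iff.rfl⟩
  have hsum : ∀ F : Fin m → ℝ, ∑ j : (k : Fin m) × Fin (q k), F j.1 = ∑ k, (q k : ℝ) * F k := by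
    intro F
    rw [Fintype.sum_sigma]
    refine sum_congr rfl fun k _ => ?_
    simp
  have hcard : Fintype.card ((k : Fin m) × Fin (q k)) = ∑ k, q k := by
    rw [Fintype.card_sigma]
    exact sum_congr rfl fun k _ => Fintype.card_fin _
  have hcards : Fintype.card ((k : Fin m) × Fin (q k)) * s ≤ N := by
    have h1 : ((∑ k, q k : ℕ) : ℝ) * s ≤ n := by
      rw [Nat.cast_sum, sum_mul, ← hpn]
      exact sum_le_sum fun k _ => hqs k
    rw [hcard]
    have h2 : (((∑ k, q k) * s : ℕ) : ℝ) ≤ (N : ℝ) := by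
      rw [Nat.cast_mul]
      exact h1
    exact Nat.cast_le.1 h2
  have hgood : ∀ i : (k : Fin m) × Fin (q k), G i.1 := by
    intro i
    by_contra hk
    have h1 : q i.1 = 0 := by rw [hqd, if_neg hk]
    have h2 := i.2.2
    omega
  refine ⟨(k : Fin m) × Fin (q k), Fin m, inferInstance, ?_, fun k => cl c k, Sigma.fst, ρ, s, ?_, by omega,
    ?_, ?_, ?_, ?_, ?_, ?_⟩
  · -- nonempty
    by_contra hne
    rw [not_nonempty_iff] at hne
    have h0 : ∀ k, q k = 0 := by
      intro k
      by_contra hk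
      exact hne.false ⟨k, ⟨0, Nat.pos_of_ne_zero hk⟩⟩
    have h1 : ∀ k, p k ≤ (if G k then 0 else p k) + s := by
      intro k
      by_cases hk : G k
      · rw [if_pos hk]
        have h2 := hqG k hk
        rw [h0 k, Nat.cast_zero, sub_nonpos, div_le_one hs0] at h2
        linarith
      · rw [if_neg hk]
        linarith
    have h2 : n ≤ 3 / 64 * θ * n + m * s := by
      calc n = ∑ k, p k := hpn.symm
        _ ≤ ∑ k, ((if G k then 0 else p k) + (s : ℝ)) := sum_le_sum fun k _ => h1 k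
        _ = ∑ k, (if G k then 0 else p k) + m * s := by
            rw [sum_add_distrib, sum_const, card_univ, Fintype.card_fin, nsmul_eq_mul]
        _ ≤ _ := by linarith
    have h3 : θ * n ≤ 1 * n := mul_le_mul_of_nonneg_right hθ1 hn0.le
    linarith
  · -- number of vertices
    by_contra hlt
    push Not at hlt
    have h1 : 2 * S0 * s ≤ Fintype.card ((k : Fin m) × Fin (q k)) * s :=
      Nat.mul_le_mul_right s (by omega)
    omega
  · calc N ≤ 2 * S0 * s := hNlt2.le
      _ ≤ (2 * S0 + M) * s := Nat.mul_le_mul_right s (by omega)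
  · intro i j hij
    rw [Finset.disjoint_left]
    intro x hx hy
    exact hij (((red_mem_cl c i x).1 hx).symm.trans ((red_mem_cl c j x).1 hy))
  · intro i hi
    exact ((hρd i i).1 hi).2.2.1 rfl
  · intro i j hij X hX Y hY hX1 hY1
    obtain ⟨_, _, _, hL, hd⟩ := (hρd i j).1 hij
    have h1 := hL X hX Y hY
      (le_trans (mul_le_mul_of_nonneg_right e1 (by positivity)) hX1)
      (le_trans (mul_le_mul_of_nonneg_right e1 (by positivity)) hY1)
    refine le_trans (mul_le_mul_of_nonneg_right ?_ (by positivity)) h1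
    unfold dn at hd
    linarith
  · intro k
    have h1 : {i : (k : Fin m) × Fin (q k) | i.1 = k}.ncard ≤ q k := by
      have h2 : {i : (k : Fin m) × Fin (q k) | i.1 = k} ⊆
          (fun x : Fin (q k) => (⟨k, x⟩ : (k : Fin m) × Fin (q k))) '' Set.univ := by
        rintro ⟨k', x⟩ hk
        have hk' : k' = k := hk
        subst hk'
        exact ⟨x, Set.mem_univ _, rfl⟩
      calc _ ≤ ((fun x : Fin (q k) => (⟨k, x⟩ : (k : Fin m) × Fin (q k))) '' Set.univ).ncard :=
            Set.ncard_le_ncard h2 (Set.toFinite _)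
        _ ≤ (Set.univ : Set (Fin (q k))).ncard := Set.ncard_image_le (Set.toFinite _)
        _ = q k := by rw [Set.ncard_univ, Nat.card_eq_fintype_card, Fintype.card_fin]
    have h3 : (({i : (k : Fin m) × Fin (q k) | i.1 = k}.ncard : ℕ) : ℝ) ≤ q k := by exact_mod_cast h1
    have h4 := hqs k
    rw [hpd] at h4
    exact (mul_le_mul_of_nonneg_right h3 hs0.le).trans h4
  · refine ⟨fun i j => if ρ i.1 j.1 then dn A (cl c i.1) (cl c j.1) else 0, ?_, ?_, ?_, ?_, ?_⟩
    · intro i j
      dsimp only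
      split_ifs
      · exact red_dn_nonneg _ _ _
      · exact le_rfl
    · intro i j hij
      by_contra hk
      dsimp only at hij
      rw [if_neg hk] at hij
      exact lt_irrefl _ hij
    · intro i j
      dsimp only
      have h1 := red_dn_add A (cl c i.1) (cl c j.1) hA
      have h2 := red_dn_nonneg A (cl c i.1) (cl c j.1)
      have h3 := red_dn_nonneg A (cl c j.1) (cl c i.1)
      split_ifs <;> linarith
    · intro i
      have hGi := (hGd i.1).1 (hgood i)
      have hne : (cl c i.1).Nonempty := by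
        have h1 := hGi.1
        rw [hpd] at h1
        rw [← Finset.card_pos]
        exact_mod_cast h1
      have h1 := red_row p (fun k => dn A (cl c i.1) (cl c k)) q s (by omega) hp
        (fun k => red_dn_nonneg _ _ _) (fun k => red_dn_le _ _ _ hA) G
        (fun k => LReg A ε' (cl c i.1) (cl c k)) (fun k => ρ i.1 k) i.1 θ n δ hθ.le
        (fun k g1 g2 g3 g4 => (hρd _ _).2 ⟨hgood i, g1, fun g => g2 g.symm, g3, g4⟩)
        (fun k g => hqG k ((hρd _ _).1 g).2.1)
        (by
          have h2 := red_degsum A c (cl c i.1) hne δ hout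
          refine h2.trans (le_of_eq ?_)
          exact sum_congr rfl fun k _ => by rw [hpd])
        hbad hGi.2.2.2 (by
          have h2 := hGi.2.1
          rw [hud] at h2
          exact h2) hpn (by rw [Fintype.card_fin]; exact hms)
      exact h1.trans (le_of_eq (hsum (fun k => if ρ i.1 k then dn A (cl c i.1) (cl c k) else 0)).symm)
    · intro i
      have hGi := (hGd i.1).1 (hgood i)
      have hne : (cl c i.1).Nonempty := by
        have h1 := hGi.1
        rw [hpd] at h1
        rw [← Finset.card_pos]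
        exact_mod_cast h1
      have h1 := red_row p (fun k => dn A (cl c k) (cl c i.1)) q s (by omega) hp
        (fun k => red_dn_nonneg _ _ _) (fun k => red_dn_le _ _ _ hA) G
        (fun k => LReg A ε' (cl c k) (cl c i.1)) (fun k => ρ k i.1) i.1 θ n δ hθ.le
        (fun k g1 g2 g3 g4 => (hρd _ _).2 ⟨g1, hgood i, g2, g3, g4⟩)
        (fun k g => hqG k ((hρd _ _).1 g).1)
        (by
          have h2 := red_degsum (fun x y => A y x) c (cl c i.1) hne δ hin
          refine h2.trans (le_of_eq ?_)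
          exact sum_congr rfl fun k _ => by rw [hpd, red_dn_flip])
        hbad hGi.2.2.2 (by
          have h2 := hGi.2.2.1
          rw [hvd] at h2
          exact h2) hpn (by rw [Fintype.card_fin]; exact hms)
      exact h1.trans (le_of_eq (hsum (fun k => if ρ k i.1 then dn A (cl c k) (cl c i.1) else 0)).symm)

end Pool.Agent.Helper34.ST
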